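import Pool.Agent.H16.TK.Stmt

/-! Module DIR: a decreasing sequence of connected sets with empty intersection is a direction. -/

set_option autoImplicit false

open Set Pool.Agent.TK

namespace Pool.Agent.H48.TK.DIRm

lemma anti {E : ℕ → Set ℕ} (hE : ∀ n, E (n + 1) ⊆ E n) {m n : ℕ} (h : m ≤ n) : E n ⊆ E m := by
  induction n, h using Nat.le_induction with
  | base => exact Subset.rfl
  | succ k _ ih => exact (hE k).trans ih

/-- finite sets are avoided from some index on -/
lemma avoid {E : ℕ → Set ℕ} (hE : ∀ n, E (n + 1) ⊆ E n) (h0 : (⋂ n, E n) = ∅) (B : Set ℕ)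
    (hB : B.Finite) : ∃ n, Disjoint B (E n) := by
  induction B, hB using Set.Finite.induction_on with
  | empty => exact ⟨0, disjoint_bot_left⟩
  | @insert a s _ _ ih =>
    obtain ⟨n, hn⟩ := ih
    have ha : a ∉ ⋂ n, E n := by rw [h0]; exact Set.notMem_empty a
    rw [Set.mem_iInter] at ha
    push Not at ha
    obtain ⟨m, hm⟩ := ha
    refine ⟨max m n, ?_⟩
    rw [Set.disjoint_left]
    intro x hx hxE
    rcases hx with rfl | hx
    · exact hm (anti hE (le_max_left m n) hxE)
    · exact Set.disjoint_left.1 hn hx (anti hE (le_max_right m n) hxE)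

end Pool.Agent.H48.TK.DIRm

namespace Pool.Agent.H48.TK

open DIRm

theorem pf_DIR {C : Type} {c0 : C} : DIR C c0 := by
  classical
  intro M hM E hE hcd h0
  have hav := avoid hE h0
  -- the component of `M - B` containing `E n`
  have hex : ∀ B : Set ℕ, B.Finite → ∃ D : Set ℕ, IsCp M B D ∧ ∀ n, Disjoint B (E n) → E n ⊆ D := by
    intro B hB
    obtain ⟨n0, hn0⟩ := hav B hB
    obtain ⟨x, hx⟩ := (hcd n0).1
    have hxB : x ∉ B := fun h => Set.disjoint_left.1 hn0 h hx
    refine ⟨cp M B x, isCp_cp hxB, ?_⟩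
    have h1 : E n0 ⊆ cp M B x := (hcd n0).subset hM (isCp_cp hxB) hn0.symm hx (self_mem_cp hxB)
    intro n hn
    obtain ⟨y, hy⟩ := (hcd (max n0 n)).1
    have hy0 : y ∈ E n0 := anti hE (le_max_left _ _) hy
    have hyn : y ∈ E n := anti hE (le_max_right _ _) hy
    exact (hcd n).subset hM (isCp_cp hxB) hn.symm hyn (h1 hy0)
  choose! w hw1 hw2 using hex
  refine ⟨w, ⟨hw1, ?_⟩, fun B hB n hn => hw2 B hB n hn⟩
  intro A B hB hAB
  have hA : A.Finite := hB.subset hAB
  obtain ⟨n, hn⟩ := hav B hB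
  obtain ⟨x, hx⟩ := (hcd n).1
  have hxB : x ∈ w B := hw2 B hB n hn hx
  have hxA : x ∈ w A := hw2 A hA n (hn.mono_left hAB) hx
  refine ((hw1 B hB).cd hM).subset hM (hw1 A hA) ?_ hxB hxA
  exact (hw1 B hB).disj.mono_right hAB

end Pool.Agent.H48.TK
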