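import Pool.Agent.H16.TK.Stmt

/-! Module BAS: a good base. -/

set_option autoImplicit false

open Set Pool.Agent.TK

namespace Pool.Agent.H48.TK

theorem pf_BAS {C : Type} {c0 : C} : BAS C c0 := by
  intro M hM w hw hD B hB
  have hB0 : (B ∪ Dm M w).Finite := hB.union hD
  obtain ⟨b, hb⟩ := (hw.1 _ hB0).nonempty
  have hA0 : (B ∪ Dm M w ∪ {b}).Finite := hB0.union (Set.finite_singleton b)
  refine ⟨B ∪ Dm M w ∪ {b}, hA0, fun x hx => Or.inl (Or.inl hx), fun x hx => Or.inl (Or.inr hx), ?_⟩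
  have hsub : w (B ∪ Dm M w ∪ {b}) ⊆ w (B ∪ Dm M w) := hw.2 _ _ hA0 (fun x hx => Or.inl hx)
  obtain ⟨c, hc⟩ := (hw.1 _ hA0).nonempty
  have hbn : b ∉ w (B ∪ Dm M w ∪ {b}) := fun h =>
    Set.disjoint_left.1 (hw.1 _ hA0).disj h (Or.inr rfl)
  have hconn : Conn M (w (B ∪ Dm M w))ᶜ c b := ((hw.1 _ hB0).cd hM).2 c (hsub hc) b hb
  obtain ⟨x, hx, hxA, _, _⟩ := Conn.exit hM hconn hc hbn
  refine ⟨x, hx, fun hxD => ?_⟩
  have hxw : x ∈ w (B ∪ Dm M w) := by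
    by_contra h
    exact hxA h
  exact Set.disjoint_left.1 (hw.1 _ hB0).disj hxw (Or.inr hxD)

end Pool.Agent.H48.TK
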